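import Mathlib
import Pool.Agent.R710.Prim.Compl

/-!
# A finite-dimensional Hopf algebra with infinite factorization index
-/

set_option autoImplicit false

open scoped TensorProduct

namespace Pool.Agent.Results.MP_d8e1db_al.InfiniteIndex

/-- The factorization index of the Hopf subalgebra `i : A → E` is infinite: there are infinitely
many pairwise non-isomorphic Hopf algebras `H n` with embeddings `j n : H n → E` such that the
image of `j n` is a complement of the image of `i`, i.e. `a ⊗ h ↦ i(a) j(h)` is bijective. -/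
def InfiniteFactorizationIndex {k : Type} [Field k] {A E : Type} [Ring A] [HopfAlgebra k A]
    [Ring E] [HopfAlgebra k E] (i : A →ₐc[k] E) : Prop :=
  ∃ (H : ℕ → Type) (_ : ∀ n, Ring (H n)) (_ : ∀ n, HopfAlgebra k (H n))
    (j : ∀ n, H n →ₐc[k] E),
    (∀ n, Function.Injective (j n)) ∧
    (∀ n, Function.Bijective (LinearMap.mul' k E ∘ₗ
      TensorProduct.map (i : A →ₗ[k] E) (j n : H n →ₗ[k] E))) ∧
    ∀ m n, m ≠ n → IsEmpty (H m ≃ₐc[k] H n)

open Pool.Agent.R710.Prim

noncomputable instance instA (k : Type) [Field k] [CharP k 2] : HopfAlgebra k (Pres k (RelA k)) :=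
  (primRelA k).data.hopf

noncomputable instance instE (k : Type) [Field k] [CharP k 2] : HopfAlgebra k (Pres k (RelE k)) :=
  (primRelE k).data.hopf

noncomputable instance instH (k : Type) [Field k] [CharP k 2] (w : k) :
    HopfAlgebra k (Pres k (RelH k w)) :=
  (primRelH k w).data.hopf

section hom

variable {k : Type*} [Field k] {B B' : Type*} [Ring B] [Algebra k B] [Ring B'] [Algebra k B']

/-- A map of algebras that maps generators to primitive elements is a map of bialgebras. -/
@[reducible] noncomputable def bialgHom (P : PrimData k B) (P' : PrimData k B') (f : B →ₐ[k] B')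
    (h : ∀ x ∈ P.G, P'.Δ (f x) = f x ⊗ₜ 1 + 1 ⊗ₜ f x ∧ P'.ε (f x) = 0) :
    letI := P.hopf; letI := P'.hopf; B →ₐc[k] B' :=
  letI := P.hopf
  letI := P'.hopf
  BialgHom.ofAlgHom f
    (by
      refine AlgHom.ext_of_adjoin_eq_top P.adjoin_eq fun x hx => ?_
      show P'.ε (f x) = P.ε x
      rw [(h x hx).2, P.ε_eq x hx])
    (by
      refine AlgHom.ext_of_adjoin_eq_top P.adjoin_eq fun x hx => ?_
      show Algebra.TensorProduct.map f f (P.Δ x) = P'.Δ (f x)
      rw [(h x hx).1, P.Δ_eq x hx]
      simp)

end hom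

variable (k : Type) [Field k] [CharP k 2]

theorem E_prim (i : Fin 3) : (primRelE k).data.Δ (gen k (RelE k) i) =
    gen k (RelE k) i ⊗ₜ 1 + 1 ⊗ₜ gen k (RelE k) i ∧ (primRelE k).data.ε (gen k (RelE k) i) = 0 :=
  ⟨(primRelE k).data.Δ_eq _ ⟨i, rfl⟩, (primRelE k).data.ε_eq _ ⟨i, rfl⟩⟩

/-- the inclusion of `A` -/
noncomputable def incA : Pres k (RelA k) →ₐc[k] Pres k (RelE k) :=
  bialgHom (primRelA k).data (primRelE k).data (iA k) (by
    rintro _ ⟨⟨⟩, rfl⟩
    rw [iA_d]
    exact E_prim k 1)

/-- the inclusion of `H w` -/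
noncomputable def incH (w : k) : Pres k (RelH k w) →ₐc[k] Pres k (RelE k) :=
  bialgHom (primRelH k w).data (primRelE k).data (jH w) (by
    rintro _ ⟨j, rfl⟩
    fin_cases j
    · simp only [Fin.zero_eta]
      rw [jH_z]
      exact E_prim k 0
    · simp only [Fin.mk_one]
      rw [jH_Y, map_add, map_smul, (E_prim k 2).1, (E_prim k 1).1, map_add, map_smul,
        (E_prim k 2).2, (E_prim k 1).2, smul_zero, add_zero]
      refine ⟨?_, rfl⟩
      rw [TensorProduct.add_tmul, TensorProduct.tmul_add, TensorProduct.tmul_smul,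
        ← TensorProduct.smul_tmul', smul_add]
      abel)

theorem incH_bijective (w : k) : Function.Bijective (LinearMap.mul' k (Pres k (RelE k)) ∘ₗ
    TensorProduct.map (incA k : Pres k (RelA k) →ₗ[k] Pres k (RelE k))
      (incH k w : Pres k (RelH k w) →ₗ[k] Pres k (RelE k))) :=
  mulMap_bijective w

theorem incH_injective (w : k) : Function.Injective (incH k w) := by
  intro x y hxy
  have h1 := (incH_bijective k w).1 (a₁ := 1 ⊗ₜ x) (a₂ := 1 ⊗ₜ y) (by
    show incA k 1 * incH k w x = incA k 1 * incH k w y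
    rw [hxy])
  have h2 := congrArg (fun z => TensorProduct.lid k (Pres k (RelH k w))
    (TensorProduct.map (Coalgebra.counit (R := k) (A := Pres k (RelA k))) LinearMap.id z)) h1
  simpa using h2

theorem incA_injective : Function.Injective (incA k) := by
  intro x y hxy
  have h1 := (incH_bijective k 0).1 (a₁ := x ⊗ₜ 1) (a₂ := y ⊗ₜ 1) (by
    show incA k x * incH k 0 1 = incA k y * incH k 0 1
    rw [hxy])
  have h2 := congrArg (fun z => TensorProduct.rid k (Pres k (RelA k))
    (TensorProduct.map LinearMap.id (Coalgebra.counit (R := k) (A := Pres k (RelH k 0))) z)) h1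
  simpa using h2

/-- There are a field `k` and finite-dimensional Hopf algebras `A ⊆ E` over `k` such that the
factorization index of `A` in `E` is infinite. -/
theorem result : ∃ (k : Type) (_ : Field k) (A E : Type) (_ : Ring A) (_ : HopfAlgebra k A)
    (_ : Ring E) (_ : HopfAlgebra k E) (i : A →ₐc[k] E),
    FiniteDimensional k A ∧ FiniteDimensional k E ∧ Function.Injective i ∧
    InfiniteFactorizationIndex i := by
  refine ⟨KK, inferInstance, Pres KK (RelA KK), Pres KK (RelE KK), inferInstance, inferInstance,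
    inferInstance, inferInstance, incA KK, ?_, ?_, incA_injective KK, ?_⟩
  · exact inferInstanceAs (Module.Finite KK (Pres KK (RelA KK)))
  · exact inferInstanceAs (Module.Finite KK (Pres KK (RelE KK)))
  · refine ⟨fun n => Pres KK (RelH KK (wK n)), inferInstance, inferInstance,
      fun n => incH KK (wK n), fun n => incH_injective KK _, fun n => incH_bijective KK _, ?_⟩
    intro m n hmn
    refine ⟨fun f => hmn ?_⟩
    obtain ⟨γ, δ, h⟩ := exists_of_hom ((f : Pres KK (RelH KK (wK m)) ≃ₐ[KK]
      Pres KK (RelH KK (wK n))) : Pres KK (RelH KK (wK m)) →ₐ[KK] Pres KK (RelH KK (wK n)))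
      f.injective
    exact eq_of_wK h

end Pool.Agent.Results.MP_d8e1db_al.InfiniteIndex
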